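import Mathlib

/-!
# Three-state cellular automata on `ℤ^d` with the von Neumann neighbourhood
-/

namespace Pool.Agent.W99.CA

/-- The `2d + 1` positions of the von Neumann neighbourhood: `none` is the centre,
`some (i, true)` is `+e_i` and `some (i, false)` is `-e_i`. -/
abbrev Nb (d : ℕ) := Option (Fin d × Bool)

/-- The neighbourhood vector of a position. -/
def nb {d : ℕ} : Nb d → (Fin d → ℤ)
  | none => 0
  | some (i, true) => Pi.single i 1
  | some (i, false) => Pi.single i (-1)

/-- The global map of the cellular automaton on `ℤ^d` with states `{0, 1, 2}`, the von Neumann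
neighbourhood and local rule `f`: `F(x)_v = f((x_{v+u})_{u ∈ N})`. -/
def glob {d : ℕ} (f : (Nb d → Fin 3) → Fin 3) (x : (Fin d → ℤ) → Fin 3) :
    (Fin d → ℤ) → Fin 3 :=
  fun v => f (fun u => x (v + nb u))

/-- `F` is number-conserving: for all positive periods `p_1, …, p_d` and every configuration `x`
which is `p_i`-periodic in the direction `e_i` for every `i`, the sum of the states of `F x`
over the box `∏ [0, p_i)` equals the sum of the states of `x` over this box. -/
def NumberConserving {d : ℕ} (F : ((Fin d → ℤ) → Fin 3) → ((Fin d → ℤ) → Fin 3)) : Prop :=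
  ∀ p : Fin d → ℕ, (∀ i, 0 < p i) →
    ∀ x : (Fin d → ℤ) → Fin 3, (∀ v i, x (v + Pi.single i (p i : ℤ)) = x v) →
      ∑ v ∈ Fintype.piFinset (fun i => Finset.Ico (0 : ℤ) (p i)), (F x v).val =
        ∑ v ∈ Fintype.piFinset (fun i => Finset.Ico (0 : ℤ) (p i)), (x v).val

end Pool.Agent.W99.CA
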