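import Mathlib

/-!
# The two-dimensional step

`g c a b a' b'` is the value of a rule on centre `c`, neighbours `a` at `+e₁`, `b` at `-e₁`,
`a'` at `+e₂`, `b'` at `-e₂`. `Cons g` is the conservation law for a configuration supported on
a von Neumann neighbourhood.
-/

namespace Pool.Agent.W99.CA

/-- Conservation of the sum for configurations supported on the five cells of one neighbourhood. -/
def Cons (g : Fin 3 → Fin 3 → Fin 3 → Fin 3 → Fin 3 → Fin 3) : Prop :=
  ∀ c a b a' b' : Fin 3,
    (g c a b a' b').val + (g a 0 c 0 0).val + (g b c 0 0 0).val + (g a' 0 0 0 c).val +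
    (g b' 0 0 c 0).val + (g 0 0 a 0 0).val + (g 0 b 0 0 0).val + (g 0 0 0 0 a').val +
    (g 0 0 0 b' 0).val + (g 0 0 a' 0 a).val + (g 0 0 b' a 0).val + (g 0 a' 0 0 b).val +
    (g 0 b' 0 b 0).val = c.val + a.val + b.val + a'.val + b'.val

theorem shift2 (g : Fin 3 → Fin 3 → Fin 3 → Fin 3 → Fin 3 → Fin 3) (H : Cons g)
    (h1 : ∀ c a b, g c a b c c = a) : ∀ c a b a' b', g c a b a' b' = a := by
  have v1 : ∀ c a b, (g c a b c c).val = a.val := fun c a b => congrArg Fin.val (h1 c a b)
  have z : ((0 : Fin 3).val) = 0 := rfl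
  have A1 : ∀ s, (g 0 s 0 0 0).val = s.val := fun s => v1 0 s 0
  have A2 : ∀ s, (g 0 0 s 0 0).val = 0 := fun s => v1 0 0 s
  have A3 : ∀ s, (g s 0 0 0 0).val = 0 ∧ (g 0 0 0 0 s).val = 0 ∧ (g 0 0 0 s 0).val = 0 := by
    intro s
    have h := H 0 s 0 0 0
    have := A1 s
    have := A2 s
    refine ⟨?_, ?_, ?_⟩ <;> omega
  have A4 : ∀ c r, (g c 0 0 r 0).val = 0 ∧ (g r 0 0 0 c).val = 0 := by
    intro c r
    have h := H c 0 0 r 0
    have := A1 c
    have := A1 r
    refine ⟨?_, ?_⟩ <;> omega
  have A5 : ∀ c r, (g r 0 c 0 0).val = 0 ∧ (g 0 0 c 0 r).val = 0 ∧ (g 0 0 c r 0).val = 0 := by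
    intro c r
    have h := H c r 0 c c
    have := A1 c
    have := v1 c r 0
    refine ⟨?_, ?_, ?_⟩ <;> omega
  have A6 : ∀ c r, (g c r 0 0 0).val = r.val := by
    intro c r
    have h := H c r 0 0 0
    have := A1 c
    have := (A5 c r).1
    have := A2 r
    have := (A3 r).2.1
    have := (A3 r).2.2
    have := (A3 c).2.1
    have := (A3 c).2.2
    have := (A3 0).1
    omega
  have A7 : ∀ s t, (g 0 s 0 t 0).val = s.val := by
    intro s t
    have h := H 0 s 0 t 0
    have := (A5 t s).2.1
    have := A1 t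
    have := A2 s
    have := (A3 s).2.1
    have := (A3 s).2.2
    have := (A3 s).1
    have := (A3 t).1
    have := (A3 t).2.1
    have := (A3 t).2.2
    have := (A3 0).1
    omega
  have A8 : ∀ s t, (g 0 s 0 0 t).val = s.val := by
    intro s t
    have h := H 0 s 0 0 t
    have := (A5 t s).2.2
    have := A1 t
    have := A2 s
    have := (A3 s).2.1
    have := (A3 s).2.2
    have := (A3 s).1
    have := (A3 t).1
    have := (A3 t).2.1
    have := (A3 t).2.2
    have := (A3 0).1
    omega
  intro c a b a' b'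
  have h := H c a b a' b'
  have := (A5 c a).1
  have := A6 b c
  have := (A4 c a').2
  have := (A4 b' c).1
  have := A2 a
  have := A1 b
  have := (A3 a').2.1
  have := (A3 b').2.2
  have := (A5 a' a).2.1
  have := (A5 b' a).2.2
  have := A8 a' b
  have := A7 b' b
  exact Fin.ext (by omega)

theorem id2 (g : Fin 3 → Fin 3 → Fin 3 → Fin 3 → Fin 3 → Fin 3) (H : Cons g)
    (h1 : ∀ c a b, g c a b c c = c) (h2 : ∀ c a b, g c c c a b = c) :
    ∀ c a b a' b', g c a b a' b' = c := by
  have v1 : ∀ c a b, (g c a b c c).val = c.val := fun c a b => congrArg Fin.val (h1 c a b)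
  have v2 : ∀ c a b, (g c c c a b).val = c.val := fun c a b => congrArg Fin.val (h2 c a b)
  have z : ((0 : Fin 3).val) = 0 := rfl
  have A1 : ∀ s, (g 0 s 0 0 0).val = 0 := fun s => v1 0 s 0
  have A2 : ∀ s, (g 0 0 s 0 0).val = 0 := fun s => v1 0 0 s
  have A3 : ∀ s, (g 0 0 0 s 0).val = 0 := fun s => v2 0 s 0
  have A4 : ∀ s, (g 0 0 0 0 s).val = 0 := fun s => v2 0 0 s
  have A5 : ∀ s, (g s 0 0 0 0).val = s.val := by
    intro s
    have h := H s 0 0 0 0
    have := A1 s
    have := A2 s
    have := A3 s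
    have := A4 s
    have := A1 0
    omega
  have A6 : ∀ s t, (g 0 s 0 t 0).val = 0 ∧ (g 0 0 t 0 s).val = 0 := by
    intro s t
    have h := H 0 s 0 t 0
    have := A5 s
    have := A5 t
    constructor <;> omega
  have A7 : ∀ s t, (g 0 s 0 0 t).val = 0 ∧ (g 0 0 t s 0).val = 0 := by
    intro s t
    have h := H 0 s 0 0 t
    have := A5 s
    have := A5 t
    constructor <;> omega
  have A8 : ∀ c r, (g r 0 c 0 0).val = r.val ∧ (g c r 0 0 0).val = c.val := by
    intro c r
    have h := H c r 0 c c
    have h' := H c 0 0 c 0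
    have h'' := H c r 0 0 0
    have := v1 c r 0
    have := A1 c
    have := A2 c
    have := A3 c
    have := A4 c
    have := A1 r
    have := A2 r
    have := A3 r
    have := A4 r
    have := (A6 r c).2
    have := (A7 r c).2
    have := A1 0
    constructor <;> omega
  have A9 : ∀ c r, (g r 0 0 0 c).val = r.val ∧ (g c 0 0 r 0).val = c.val := by
    intro c r
    have h := H c c c r 0
    have h'' := H c 0 0 r 0
    have := v2 c r 0
    have := (A8 c c).1
    have := (A8 c c).2
    have := A1 c
    have := A2 c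
    have := A3 c
    have := A4 c
    have := A1 r
    have := A2 r
    have := A3 r
    have := A4 r
    have := (A6 c r).2
    have := (A7 r c).1
    have := A1 0
    constructor <;> omega
  intro c a b a' b'
  have h := H c a b a' b'
  have := (A8 c a).1
  have := (A8 b c).2
  have := (A9 c a').1
  have := (A9 b' c).2
  have := A2 a
  have := A1 b
  have := A4 a'
  have := A3 b'
  have := (A6 a a').2
  have := (A7 a b').2
  have := (A7 a' b).1
  have := (A6 b' b).1
  exact Fin.ext (by omega)

theorem shift2_b (g : Fin 3 → Fin 3 → Fin 3 → Fin 3 → Fin 3 → Fin 3) (H : Cons g)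
    (h1 : ∀ c a b, g c a b c c = b) : ∀ c a b a' b', g c a b a' b' = b := by
  intro c a b a' b'
  exact shift2 (fun c a b a' b' => g c b a a' b')
    (fun c a b a' b' => by
      have := H c b a a' b'
      beta_reduce
      omega) (fun c a b => h1 c b a) c b a a' b'

theorem shift2_a' (g : Fin 3 → Fin 3 → Fin 3 → Fin 3 → Fin 3 → Fin 3) (H : Cons g)
    (h1 : ∀ c a' b', g c c c a' b' = a') : ∀ c a b a' b', g c a b a' b' = a' := by
  intro c a b a' b'
  exact shift2 (fun c a b a' b' => g c a' b' a b)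
    (fun c a b a' b' => by
      have := H c a' b' a b
      beta_reduce
      omega) (fun c a b => h1 c a b) c a' b' a b

theorem shift2_b' (g : Fin 3 → Fin 3 → Fin 3 → Fin 3 → Fin 3 → Fin 3) (H : Cons g)
    (h1 : ∀ c a' b', g c c c a' b' = b') : ∀ c a b a' b', g c a b a' b' = b' := by
  intro c a b a' b'
  exact shift2_b (fun c a b a' b' => g c a' b' a b)
    (fun c a b a' b' => by
      have := H c a' b' a b
      beta_reduce
      omega) (fun c a b => h1 c a b) c a' b' a b

end Pool.Agent.W99.CA
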