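import Mathlib
import Pool.Agent.W99.CA.TwoD

/-!
# The conservation law on the torus `(ℤ/5)²` implies `Cons`
-/

namespace Pool.Agent.W99.CA

theorem sum5 (F : ZMod 5 → ℕ) : ∑ w, F w = F (0 : Fin 5) + F (1 : Fin 5) + F (2 : Fin 5) +
    F (3 : Fin 5) + F (4 : Fin 5) := Fin.sum_univ_five (F : Fin 5 → ℕ)

/-- The configuration on `(ℤ/5)²` supported on one neighbourhood. -/
def cross (c a b a' b' : Fin 3) (w : ZMod 5 × ZMod 5) : Fin 3 :=
  (![![c, a', 0, 0, b'], ![a, 0, 0, 0, 0], ![0, 0, 0, 0, 0], ![0, 0, 0, 0, 0],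
    ![b, 0, 0, 0, 0]] : Fin 5 → Fin 5 → Fin 3) w.1 w.2

theorem cons_of (g : Fin 3 → Fin 3 → Fin 3 → Fin 3 → Fin 3 → Fin 3)
    (h : ∀ y : ZMod 5 × ZMod 5 → Fin 3,
      ∑ w, (g (y w) (y (w + (1, 0))) (y (w + (-1, 0))) (y (w + (0, 1))) (y (w + (0, -1)))).val =
        ∑ w, (y w).val) : Cons g := by
  have key : ∀ c a b a' b' : Fin 3,
      ((g c a b a' b').val + (g a' 0 0 0 c).val + (g 0 0 0 0 a').val + (g 0 0 0 b' 0).val +
        (g b' 0 0 c 0).val) +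
      ((g a 0 c 0 0).val + (g 0 0 a' 0 a).val + (g 0 0 0 0 0).val + (g 0 0 0 0 0).val +
        (g 0 0 b' a 0).val) +
      ((g 0 0 a 0 0).val + (g 0 0 0 0 0).val + (g 0 0 0 0 0).val + (g 0 0 0 0 0).val +
        (g 0 0 0 0 0).val) +
      ((g 0 b 0 0 0).val + (g 0 0 0 0 0).val + (g 0 0 0 0 0).val + (g 0 0 0 0 0).val +
        (g 0 0 0 0 0).val) +
      ((g b c 0 0 0).val + (g 0 a' 0 0 b).val + (g 0 0 0 0 0).val + (g 0 0 0 0 0).val +
        (g 0 b' 0 b 0).val) =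
      (c.val + a'.val + 0 + 0 + b'.val) + (a.val + 0 + 0 + 0 + 0) + (0 + 0 + 0 + 0 + 0) +
      (0 + 0 + 0 + 0 + 0) + (b.val + 0 + 0 + 0 + 0) := by
    intro c a b a' b'
    have h1 := h (cross c a b a' b')
    rw [Fintype.sum_prod_type, Fintype.sum_prod_type] at h1
    simp only [sum5] at h1
    exact h1
  intro c a b a' b'
  have k0 := key 0 0 0 0 0
  have k1 := key c a b a' b'
  have z : ((0 : Fin 3).val) = 0 := rfl
  omega

end Pool.Agent.W99.CA
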