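import Mathlib

/-!
# One-dimensional three-state number-conserving rules of radius one

If such a rule is injective on the cyclic configurations of length `4` and number-conserving on
the cyclic configurations of length `5`, it is the identity or a shift.
-/

namespace Pool.Agent.W99.CA

/-- A table with the eight free entries of `(c, r) ↦ f 0 c r`. -/
def tab (a b c d e f g h : ℕ) (x y : ℕ) : ℕ :=
  match x, y with
  | 0, 0 => 0
  | 0, 1 => a
  | 0, 2 => b
  | 1, 0 => c
  | 1, 1 => d
  | 1, 2 => e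
  | 2, 0 => f
  | 2, 1 => g
  | 2, 2 => h
  | _, _ => 0

/-- All triples of states satisfy the range condition. -/
def okAt (T : ℕ → ℕ → ℕ) (l c r : ℕ) : Bool :=
  Nat.ble (T 0 l + T l c) (l + T 0 c + T c r) && Nat.ble (l + T 0 c + T c r) (2 + (T 0 l + T l c))

def okAll (T : ℕ → ℕ → ℕ) : Bool :=
  [0, 1, 2].all fun l => [0, 1, 2].all fun c => [0, 1, 2].all fun r => okAt T l c r

def valT (T : ℕ → ℕ → ℕ) (l c r : ℕ) : ℕ := l + T 0 c + T c r - (T 0 l + T l c)

def trivL (T : ℕ → ℕ → ℕ) : Bool :=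
  [0, 1, 2].all fun c => [0, 1, 2].all fun r => Nat.beq (T c r) 0
def trivC (T : ℕ → ℕ → ℕ) : Bool :=
  [0, 1, 2].all fun c => [0, 1, 2].all fun r => Nat.beq (T c r) c
def trivR (T : ℕ → ℕ → ℕ) : Bool :=
  [0, 1, 2].all fun c => [0, 1, 2].all fun r => Nat.beq (T c r) r

/-- The cyclic words `(a, b, c, d)` and `(a', b', c', d')` have the same image. -/
def same (T : ℕ → ℕ → ℕ) (a b c d a' b' c' d' : ℕ) : Bool :=
  Nat.beq (valT T d a b) (valT T d' a' b') && Nat.beq (valT T a b c) (valT T a' b' c') &&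
  Nat.beq (valT T b c d) (valT T b' c' d') && Nat.beq (valT T c d a) (valT T c' d' a')

def wit (T : ℕ → ℕ → ℕ) : Bool :=
  same T 0 2 0 2 1 1 1 1 || same T 0 2 2 2 2 2 0 2 || same T 0 0 2 2 2 2 0 0 ||
  same T 0 0 0 2 0 2 0 0 || same T 1 1 2 2 2 2 1 1 || same T 0 0 2 2 0 1 1 2 ||
  same T 0 0 2 2 1 0 2 1 || same T 0 1 2 2 1 0 2 2

def chk (a b c d e f g h : ℕ) : Bool :=
  let T := tab a b c d e f g h
  !(okAll T) || (trivL T || trivC T || trivR T) || wit T

def chkAll : Bool :=
  [0, 1, 2].all fun a => [0, 1, 2].all fun b => [0, 1, 2].all fun c => [0, 1, 2].all fun d =>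
  [0, 1, 2].all fun e => [0, 1, 2].all fun f => [0, 1, 2].all fun g => [0, 1, 2].all fun h =>
    chk a b c d e f g h

theorem chkAll_true : chkAll = true := by decide +kernel

theorem mem3 {n : ℕ} (h : n < 3) : n ∈ [0, 1, 2] := by
  have : n = 0 ∨ n = 1 ∨ n = 2 := by omega
  simpa using this

theorem lt3_of_mem {n : ℕ} (h : n ∈ [0, 1, 2]) : n < 3 := by
  have : n = 0 ∨ n = 1 ∨ n = 2 := by simpa using h
  omega

theorem chk_true (a b c d e f g h : ℕ) (ha : a < 3) (hb : b < 3) (hc : c < 3) (hd : d < 3)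
    (he : e < 3) (hf : f < 3) (hg : g < 3) (hh : h < 3) : chk a b c d e f g h = true := by
  have H := chkAll_true
  unfold chkAll at H
  have H1 := List.all_eq_true.1 H a (mem3 ha)
  have H2 := List.all_eq_true.1 H1 b (mem3 hb)
  have H3 := List.all_eq_true.1 H2 c (mem3 hc)
  have H4 := List.all_eq_true.1 H3 d (mem3 hd)
  have H5 := List.all_eq_true.1 H4 e (mem3 he)
  have H6 := List.all_eq_true.1 H5 f (mem3 hf)
  have H7 := List.all_eq_true.1 H6 g (mem3 hg)
  exact List.all_eq_true.1 H7 h (mem3 hh)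

/-- **Structure of number-conserving rules of radius one** (Boccara–Fukś form). -/
theorem struct5 (f : Fin 3 → Fin 3 → Fin 3 → Fin 3)
    (h5 : ∀ y : ZMod 5 → Fin 3,
      ∑ w, (f (y (w - 1)) (y w) (y (w + 1))).val = ∑ w, (y w).val) (l c r : Fin 3) :
    (f l c r).val + (f 0 0 l).val + (f 0 l c).val
      = l.val + (f 0 0 c).val + (f 0 c r).val ∧ (f 0 0 0).val = 0 := by
  have key : ∀ l c r : Fin 3, (f l c r).val + (f c r 0).val + (f r 0 0).val + (f 0 0 l).val +
      (f 0 l c).val = c.val + r.val + 0 + 0 + l.val := by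
    intro l c r
    have := h5 (![c, r, 0, 0, l] : Fin 5 → Fin 3)
    have e : ∀ F : ZMod 5 → ℕ, ∑ w, F w = F (0 : Fin 5) + F (1 : Fin 5) + F (2 : Fin 5) +
        F (3 : Fin 5) + F (4 : Fin 5) := fun F => Fin.sum_univ_five (F : Fin 5 → ℕ)
    rw [e, e] at this
    exact this
  have k0 := key 0 0 0
  have k1 := key l c r
  have k2 := key c r 0
  have k3 := key 0 0 c
  have h0 : (f 0 0 0).val = 0 := by
    simp at k0
    simpa using congrArg Fin.val k0
  refine ⟨?_, h0⟩
  have k4 := key r 0 0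
  have z : ((0 : Fin 3).val) = 0 := rfl
  omega

theorem oneD (f : Fin 3 → Fin 3 → Fin 3 → Fin 3)
    (h5 : ∀ y : ZMod 5 → Fin 3,
      ∑ w, (f (y (w - 1)) (y w) (y (w + 1))).val = ∑ w, (y w).val)
    (inj4 : Function.Injective
      (fun (y : ZMod 4 → Fin 3) (w : ZMod 4) => f (y (w - 1)) (y w) (y (w + 1)))) :
    (∀ l c r, f l c r = c) ∨ (∀ l c r, f l c r = r) ∨ (∀ l c r, f l c r = l) := by
  set T : ℕ → ℕ → ℕ := tab (f 0 0 1).val (f 0 0 2).val (f 0 1 0).val (f 0 1 1).val (f 0 1 2).val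
    (f 0 2 0).val (f 0 2 1).val (f 0 2 2).val with hT
  have hTv : ∀ x y : Fin 3, T x.val y.val = (f 0 x y).val := by
    intro x y
    have h0 := (struct5 f h5 0 0 0).2
    fin_cases x <;> fin_cases y <;> first | rfl | exact h0.symm
  have hst : ∀ l c r : Fin 3, (f l c r).val + (T 0 l.val + T l.val c.val)
      = l.val + T 0 c.val + T c.val r.val := by
    intro l c r
    have h1 := (struct5 f h5 l c r).1
    have a1 : T 0 l.val = (f 0 0 l).val := hTv 0 l
    have a2 : T 0 c.val = (f 0 0 c).val := hTv 0 c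
    rw [a1, a2, hTv, hTv]
    omega
  have hval : ∀ l c r : Fin 3, valT T l.val c.val r.val = (f l c r).val := by
    intro l c r
    have := hst l c r
    unfold valT
    omega
  have hok : okAll T = true := by
    unfold okAll
    rw [List.all_eq_true]
    intro l hl
    rw [List.all_eq_true]
    intro c hc
    rw [List.all_eq_true]
    intro r hr
    have h1 := hst ⟨l, lt3_of_mem hl⟩ ⟨c, lt3_of_mem hc⟩ ⟨r, lt3_of_mem hr⟩
    have h2 := (f ⟨l, lt3_of_mem hl⟩ ⟨c, lt3_of_mem hc⟩ ⟨r, lt3_of_mem hr⟩).isLt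
    simp only at h1
    unfold okAt
    rw [Bool.and_eq_true, Nat.ble_eq, Nat.ble_eq]
    constructor <;> omega
  have hchk := chk_true _ _ _ _ _ _ _ _ (f 0 0 1).isLt (f 0 0 2).isLt (f 0 1 0).isLt
    (f 0 1 1).isLt (f 0 1 2).isLt (f 0 2 0).isLt (f 0 2 1).isLt (f 0 2 2).isLt
  unfold chk at hchk
  simp only [← hT, hok, Bool.not_true, Bool.false_or, Bool.or_eq_true] at hchk
  have hnowit : ∀ a b c d a' b' c' d' : Fin 3, same T a b c d a' b' c' d' = true →
      (a, b, c, d) = (a', b', c', d') := by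
    intro a b c d a' b' c' d' h
    unfold same at h
    simp only [Bool.and_eq_true, Nat.beq_eq] at h
    rw [hval, hval, hval, hval, hval, hval, hval, hval] at h
    obtain ⟨⟨⟨h1, h2⟩, h3⟩, h4⟩ := h
    let y : ZMod 4 → Fin 3 := (![a, b, c, d] : Fin 4 → Fin 3)
    let y' : ZMod 4 → Fin 3 := (![a', b', c', d'] : Fin 4 → Fin 3)
    have e : (fun (w : ZMod 4) => f (y (w - 1)) (y w) (y (w + 1))) =
        (fun (w : ZMod 4) => f (y' (w - 1)) (y' w) (y' (w + 1))) := by
      funext w
      change Fin 4 at w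
      fin_cases w
      · exact Fin.ext h1
      · exact Fin.ext h2
      · exact Fin.ext h3
      · exact Fin.ext h4
    have e2 := inj4 e
    have b0 : a = a' := congrFun e2 (0 : Fin 4)
    have b1 : b = b' := congrFun e2 (1 : Fin 4)
    have b2 : c = c' := congrFun e2 (2 : Fin 4)
    have b3 : d = d' := congrFun e2 (3 : Fin 4)
    rw [b0, b1, b2, b3]
  have hw : wit T = false := by
    by_contra hne
    have hw1 : wit T = true := by simpa using hne
    unfold wit at hw1
    simp only [Bool.or_eq_true] at hw1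
    rcases hw1 with ((((((hw1 | hw1) | hw1) | hw1) | hw1) | hw1) | hw1) | hw1
    · exact absurd (hnowit 0 2 0 2 1 1 1 1 hw1) (by decide)
    · exact absurd (hnowit 0 2 2 2 2 2 0 2 hw1) (by decide)
    · exact absurd (hnowit 0 0 2 2 2 2 0 0 hw1) (by decide)
    · exact absurd (hnowit 0 0 0 2 0 2 0 0 hw1) (by decide)
    · exact absurd (hnowit 1 1 2 2 2 2 1 1 hw1) (by decide)
    · exact absurd (hnowit 0 0 2 2 0 1 1 2 hw1) (by decide)
    · exact absurd (hnowit 0 0 2 2 1 0 2 1 hw1) (by decide)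
    · exact absurd (hnowit 0 1 2 2 1 0 2 2 hw1) (by decide)
  rw [hw] at hchk
  simp only [Bool.false_eq_true, or_false] at hchk
  have hall : ∀ (P : ℕ → ℕ → Bool), ([0, 1, 2].all fun c => [0, 1, 2].all fun r => P c r) = true →
      ∀ c r : Fin 3, P c.val r.val = true := by
    intro P hP c r
    exact List.all_eq_true.1 (List.all_eq_true.1 hP c.val (mem3 c.isLt)) r.val (mem3 r.isLt)
  rcases hchk with (h | h) | h
  · right; right
    intro l c r
    unfold trivL at h
    have h' := hall _ h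
    simp only [Nat.beq_eq] at h'
    have e := hst l c r
    have e0 : T 0 l.val = 0 := h' 0 l
    have e1 : T 0 c.val = 0 := h' 0 c
    rw [h' l c, h' c r, e0, e1] at e
    exact Fin.ext (by omega)
  · left
    intro l c r
    unfold trivC at h
    have h' := hall _ h
    simp only [Nat.beq_eq] at h'
    have e := hst l c r
    have e0 : T 0 l.val = 0 := h' 0 l
    have e1 : T 0 c.val = 0 := h' 0 c
    rw [h' l c, h' c r, e0, e1] at e
    exact Fin.ext (by omega)
  · right; left
    intro l c r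
    unfold trivR at h
    have h' := hall _ h
    simp only [Nat.beq_eq] at h'
    have e := hst l c r
    have e0 : T 0 l.val = l.val := h' 0 l
    have e1 : T 0 c.val = c.val := h' 0 c
    rw [h' l c, h' c r, e0, e1] at e
    exact Fin.ext (by omega)

end Pool.Agent.W99.CA
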