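import Mathlib
import Pool.Agent.W99.CA.Defs

/-!
# Cellular automata with the von Neumann neighbourhood, and their quotients on finite groups
-/

namespace Pool.Agent.W99.CA

/-- The cube `[0, n)^d`. -/
noncomputable def cube (d n : ℕ) : Finset (Fin d → ℤ) :=
  Fintype.piFinset (fun _ : Fin d => Finset.Ico (0 : ℤ) (n : ℤ))

theorem mem_cube {d n : ℕ} (v : Fin d → ℤ) : v ∈ cube d n ↔ ∀ i, 0 ≤ v i ∧ v i < n := by
  unfold cube
  rw [Fintype.mem_piFinset]
  simp

section

variable {d : ℕ} {A : Type*} [AddCommGroup A] [Fintype A] [DecidableEq A]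

theorem card_smul_hom (π : (Fin d → ℤ) →+ A) (q : Fin d → ℤ) :
    π (fun i => (Fintype.card A : ℤ) * q i) = 0 := by
  have : (fun i => (Fintype.card A : ℤ) * q i) = Fintype.card A • q := by
    funext i
    simp
  rw [this, map_nsmul, card_nsmul_eq_zero]

theorem fiber_le (π : (Fin d → ℤ) →+ A) (hπ : Function.Surjective π) (w w' : A) :
    ((cube d (Fintype.card A)).filter (fun v => π v = w)).card ≤
      ((cube d (Fintype.card A)).filter (fun v => π v = w')).card := by
  obtain ⟨v0, hv0⟩ := hπ (w' - w)
  have hn : (0 : ℤ) < Fintype.card A := by exact_mod_cast Fintype.card_pos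
  apply Finset.card_le_card_of_injOn
    (fun v => fun i => (v i + v0 i) % (Fintype.card A : ℤ))
  · intro v hv
    simp only [Finset.coe_filter, Set.mem_ofPred_eq, mem_cube] at hv ⊢
    obtain ⟨hv1, hv2⟩ := hv
    refine ⟨fun i => ⟨Int.emod_nonneg _ hn.ne', Int.emod_lt_of_pos _ hn⟩, ?_⟩
    have e : (fun i => (v i + v0 i) % (Fintype.card A : ℤ)) =
        (v + v0) - (fun i => (Fintype.card A : ℤ) * ((v i + v0 i) / (Fintype.card A : ℤ))) := by
      funext i
      simp only [Pi.sub_apply, Pi.add_apply]
      have := Int.emod_add_mul_ediv (v i + v0 i) (Fintype.card A : ℤ)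
      linarith
    rw [e, map_sub, map_add, card_smul_hom, hv2, hv0]
    abel
  · intro v hv v' hv' h
    simp only [Finset.coe_filter, Set.mem_ofPred_eq, mem_cube] at hv hv'
    funext i
    have h1 := congrFun h i
    simp only at h1
    have h2 : v i % (Fintype.card A : ℤ) = v' i % (Fintype.card A : ℤ) := by
      have := Int.ModEq.add_right_cancel' (v0 i) h1
      exact this
    rw [Int.emod_eq_of_lt (hv.1 i).1 (hv.1 i).2, Int.emod_eq_of_lt (hv'.1 i).1 (hv'.1 i).2] at h2
    exact h2

theorem sum_cube (π : (Fin d → ℤ) →+ A) (hπ : Function.Surjective π) :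
    ∃ m : ℕ, 0 < m ∧ ∀ g : A → ℕ, ∑ v ∈ cube d (Fintype.card A), g (π v) = m * ∑ w, g w := by
  refine ⟨((cube d (Fintype.card A)).filter (fun v => π v = 0)).card, ?_, ?_⟩
  · apply Finset.card_pos.2
    refine ⟨0, ?_⟩
    simp only [Finset.mem_filter, mem_cube, map_zero, and_true, Pi.zero_apply, le_refl, true_and]
    intro _
    exact_mod_cast Fintype.card_pos
  · intro g
    rw [← Finset.sum_fiberwise_of_maps_to (s := cube d (Fintype.card A)) (t := Finset.univ)
      (g := fun v => π v) (fun _ _ => Finset.mem_univ _), Finset.mul_sum]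
    apply Finset.sum_congr rfl
    intro w _
    rw [Finset.sum_congr rfl (g := fun _ => g w)]
    · rw [Finset.sum_const, smul_eq_mul]
      congr 1
      exact le_antisymm (fiber_le π hπ w 0) (fiber_le π hπ 0 w)
    · intro v hv
      rw [Finset.mem_filter] at hv
      rw [hv.2]

/-- A number-conserving cellular automaton conserves the sum on every finite quotient. -/
theorem quot_nc (f : (Nb d → Fin 3) → Fin 3) (h : NumberConserving (glob f))
    (π : (Fin d → ℤ) →+ A) (hπ : Function.Surjective π) (y : A → Fin 3) :
    ∑ w, (f fun u => y (w + π (nb u))).val = ∑ w, (y w).val := by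
  obtain ⟨m, hm, key⟩ := sum_cube π hπ
  have h1 := h (fun _ => Fintype.card A) (fun _ => Fintype.card_pos) (fun v => y (π v)) (by
    intro v i
    have e : (Pi.single i ((Fintype.card A : ℕ) : ℤ) : Fin d → ℤ) =
        fun j => (Fintype.card A : ℤ) * (Pi.single i (1 : ℤ) : Fin d → ℤ) j := by
      funext j
      by_cases hj : j = i
      · subst hj; simp
      · simp [Pi.single_eq_of_ne hj]
    simp only [map_add]
    rw [e, card_smul_hom, add_zero])
  have h2 := key (fun w => (f fun u => y (w + π (nb u))).val)
  have h3 := key (fun w => (y w).val)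
  have e : ∀ v, glob f (fun v => y (π v)) v = f fun u => y (π v + π (nb u)) := by
    intro v
    unfold glob
    simp only [map_add]
  simp only [e] at h1
  unfold cube at h2 h3
  rw [h2, h3] at h1
  exact Nat.eq_of_mul_eq_mul_left hm h1

/-- An injective cellular automaton is injective on every quotient. -/
theorem quot_inj {B : Type*} [AddCommGroup B] (f : (Nb d → Fin 3) → Fin 3)
    (h : Function.Injective (glob f))
    (π : (Fin d → ℤ) →+ B) (hπ : Function.Surjective π) :
    Function.Injective (fun (y : B → Fin 3) (w : B) => f fun u => y (w + π (nb u))) := by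
  intro y y' hy
  have h1 : glob f (fun v => y (π v)) = glob f (fun v => y' (π v)) := by
    funext v
    unfold glob
    simp only [map_add]
    exact congrFun hy (π v)
  have h2 := h h1
  funext w
  obtain ⟨v, rfl⟩ := hπ w
  exact congrFun h2 v

end

end Pool.Agent.W99.CA
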