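import Mathlib
import Pool.Agent.W99.CA.OneD
import Pool.Agent.W99.CA.TwoD
import Pool.Agent.W99.CA.Cons
import Pool.Agent.W99.CA.Torus

/-!
# Injective number-conserving three-state cellular automata with the von Neumann neighbourhood
-/

namespace Pool.Agent.W99.CA

variable {d : ℕ}

/-! ### Homomorphisms to the tori -/

/-- Reduction of the coordinates modulo `5`. -/
def piT (d : ℕ) : (Fin d → ℤ) →+ (Fin d → ZMod 5) where
  toFun v := fun i => (v i : ZMod 5)
  map_zero' := by funext i; simp
  map_add' v w := by funext i; simp

theorem piT_surj : Function.Surjective (piT d) := by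
  intro w
  refine ⟨fun i => ((w i).cast : ℤ), ?_⟩
  funext i
  simp [piT]

def piE (n : ℕ) (i : Fin d) : (Fin d → ℤ) →+ ZMod n where
  toFun v := (v i : ZMod n)
  map_zero' := by simp
  map_add' v w := by simp

theorem piE_surj (n : ℕ) (i : Fin d) : Function.Surjective (piE n i) := by
  intro w
  refine ⟨fun _ => (w.cast : ℤ), ?_⟩
  simp [piE]

def piP (i j : Fin d) : (Fin d → ℤ) →+ ZMod 5 × ZMod 5 where
  toFun v := ((v i : ZMod 5), (v j : ZMod 5))
  map_zero' := by simp
  map_add' v w := by simp

theorem piP_surj {i j : Fin d} (hij : i ≠ j) : Function.Surjective (piP i j) := by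
  rintro ⟨a, b⟩
  refine ⟨fun k => if k = i then (a.cast : ℤ) else (b.cast : ℤ), ?_⟩
  simp [piP, hij.symm]

/-! ### Patterns -/

def pat1 (i : Fin d) (c a b : Fin 3) : Nb d → Fin 3
  | none => c
  | some (k, s) => if k = i then (if s then a else b) else c

def pat2 (i j : Fin d) (c a b a' b' : Fin 3) : Nb d → Fin 3
  | none => c
  | some (k, s) => if k = i then (if s then a else b) else
      if k = j then (if s then a' else b') else c

theorem pattern1 (n : ℕ) (i : Fin d) (y : ZMod n → Fin 3) (w : ZMod n) :
    (fun u => y (w + piE n i (nb u))) = pat1 i (y w) (y (w + 1)) (y (w - 1)) := by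
  funext u
  rcases u with _ | ⟨k, s⟩
  · simp [nb, pat1]
  · by_cases hk : k = i
    · subst hk
      cases s
      · simp [nb, pat1, piE, sub_eq_add_neg]
      · simp [nb, pat1, piE]
    · cases s
      · simp [nb, pat1, piE, hk]
      · simp [nb, pat1, piE, hk]

theorem pattern2 {i j : Fin d} (hij : i ≠ j) (y : ZMod 5 × ZMod 5 → Fin 3)
    (w : ZMod 5 × ZMod 5) :
    (fun u => y (w + piP i j (nb u))) =
      pat2 i j (y w) (y (w + (1, 0))) (y (w + (-1, 0))) (y (w + (0, 1))) (y (w + (0, -1))) := by
  funext u
  rcases u with _ | ⟨k, s⟩
  · simp [nb, pat2]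
  · by_cases hk : k = i
    · subst hk
      cases s
      · simp [nb, pat2, piP, Pi.single_eq_of_ne (Ne.symm hij)]
      · simp [nb, pat2, piP, Pi.single_eq_of_ne (Ne.symm hij)]
    · by_cases hk' : k = j
      · subst hk'
        cases s
        · simp [nb, pat2, piP, hk]
        · simp [nb, pat2, piP, hk]
      · have z : w + ((0 : ZMod 5), (0 : ZMod 5)) = w := add_zero w
        cases s
        · simp [nb, pat2, piP, hk, hk', z]
        · simp [nb, pat2, piP, hk, hk', z]

/-- In every direction the rule is the identity or a shift. -/
theorem dir1 (f : (Nb d → Fin 3) → Fin 3) (hnc : NumberConserving (glob f))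
    (hinj : Function.Injective (glob f)) (i : Fin d) :
    (∀ c a b, f (pat1 i c a b) = c) ∨ (∀ c a b, f (pat1 i c a b) = a) ∨
      (∀ c a b, f (pat1 i c a b) = b) := by
  have h := oneD (fun l c r => f (pat1 i c r l)) (by
      intro y
      have h1 := quot_nc f hnc (piE 5 i) (piE_surj 5 i) y
      simp only [pattern1] at h1
      exact h1) (by
      have h1 := quot_inj f hinj (piE 4 i) (piE_surj 4 i)
      simp only [pattern1] at h1
      exact h1)
  rcases h with h | h | h
  · left; intro c a b; exact h b c a
  · right; left; intro c a b; exact h b c a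
  · right; right; intro c a b; exact h b c a

theorem cons2 (f : (Nb d → Fin 3) → Fin 3) (hnc : NumberConserving (glob f))
    {i j : Fin d} (hij : i ≠ j) : Cons (fun c a b a' b' => f (pat2 i j c a b a' b')) := by
  apply cons_of
  intro y
  have h1 := quot_nc f hnc (piP i j) (piP_surj hij) y
  simp only [pattern2 hij] at h1
  exact h1

theorem pat2_left (i j : Fin d) (c a b : Fin 3) : pat2 i j c a b c c = pat1 i c a b := by
  funext u
  rcases u with _ | ⟨k, s⟩
  · rfl
  · by_cases hk : k = i
    · simp [pat1, pat2, hk]
    · by_cases hk' : k = j <;> simp [pat1, pat2, hk, hk']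

theorem pat2_right {i j : Fin d} (hij : i ≠ j) (c a b : Fin 3) :
    pat2 i j c c c a b = pat1 j c a b := by
  funext u
  rcases u with _ | ⟨k, s⟩
  · rfl
  · by_cases hk : k = i
    · subst hk
      simp [pat1, pat2, hij]
    · by_cases hk' : k = j
      · subst hk'
        simp [pat1, pat2, hk]
      · simp [pat1, pat2, hk, hk']

/-! ### Agreement on all patterns -/

/-- The images of the neighbourhood vectors in `(ℤ/5)^d`. -/
def nbz (u : Nb d) : Fin d → ZMod 5 := piT d (nb u)

theorem nbz_none : nbz (none : Nb d) = 0 := by simp [nbz, nb]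

theorem nbz_some (i : Fin d) (s : Bool) (k : Fin d) :
    nbz (some (i, s)) k = if k = i then (if s then 1 else -1) else 0 := by
  cases s
  · by_cases h : k = i
    · subst h; simp [nbz, nb, piT]
    · simp [nbz, nb, piT, h]
  · by_cases h : k = i
    · subst h; simp [nbz, nb, piT]
    · simp [nbz, nb, piT, h]

theorem nbz_sum (i : Fin d) (s : Bool) :
    ∑ k, nbz (some (i, s)) k = if s then (1 : ZMod 5) else -1 := by
  simp only [nbz_some]
  rw [Finset.sum_ite_eq' Finset.univ i]
  simp

theorem nbz_ne_zero (i : Fin d) (s : Bool) : nbz (some (i, s)) ≠ 0 := by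
  intro h
  have h1 := congrFun h i
  rw [nbz_some] at h1
  simp only [if_true, Pi.zero_apply] at h1
  cases s <;> revert h1 <;> decide

theorem nbz_inj : Function.Injective (nbz : Nb d → (Fin d → ZMod 5)) := by
  intro u u' h
  rcases u with _ | ⟨i, s⟩ <;> rcases u' with _ | ⟨j, t⟩
  · rfl
  · rw [nbz_none] at h; exact absurd h.symm (nbz_ne_zero _ _)
  · rw [nbz_none] at h; exact absurd h (nbz_ne_zero _ _)
  · have h1 := congrFun h i
    rw [nbz_some, nbz_some] at h1
    by_cases hij : i = j
    · subst hij
      simp only [if_true] at h1
      have : s = t := by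
        revert h1; cases s <;> cases t <;> decide
      rw [this]
    · simp only [if_true, hij, if_false] at h1
      exfalso
      revert h1; cases s <;> decide

open Classical in
/-- The position with a given image, and the centre if there is none. -/
noncomputable def inv (w : Fin d → ZMod 5) : Nb d :=
  if h : ∃ u, nbz u = w then h.choose else none

theorem inv_nbz (u : Nb d) : inv (nbz u) = u := by
  unfold inv
  rw [dif_pos ⟨u, rfl⟩]
  exact nbz_inj (Exists.choose_spec (⟨u, rfl⟩ : ∃ u', nbz u' = nbz u))

theorem inv_eq_none (w : Fin d → ZMod 5) (h : ∀ u, nbz u = w → u = none) : inv w = none := by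
  unfold inv
  split_ifs with h1
  · exact h _ h1.choose_spec
  · rfl

/-- Agreement at all cells but one implies agreement at the last cell. -/
theorem single_out (f : (Nb d → Fin 3) → Fin 3) (hnc : NumberConserving (glob f)) (u0 : Nb d)
    (y : (Fin d → ZMod 5) → Fin 3)
    (h : ∀ w, w ≠ 0 → f (fun u => y (w + nbz u)) = y (w + nbz u0)) :
    f (fun u => y (0 + nbz u)) = y (0 + nbz u0) := by
  have h1 := quot_nc f hnc (piT d) piT_surj y
  have h2 : ∑ w, (y (w + nbz u0)).val = ∑ w, (y w).val :=
    Equiv.sum_comp (Equiv.addRight (nbz u0)) (fun w => (y w).val)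
  rw [← h2] at h1
  rw [← Finset.add_sum_erase _ _ (Finset.mem_univ (0 : Fin d → ZMod 5)),
    ← Finset.add_sum_erase _ (fun w => (y (w + nbz u0)).val)
      (Finset.mem_univ (0 : Fin d → ZMod 5))] at h1
  have h3 : ∑ w ∈ Finset.univ.erase (0 : Fin d → ZMod 5),
      (f fun u => y (w + (piT d) (nb u))).val =
      ∑ w ∈ Finset.univ.erase (0 : Fin d → ZMod 5), (y (w + nbz u0)).val := by
    apply Finset.sum_congr rfl
    intro w hw
    exact congrArg Fin.val (h w (Finset.ne_of_mem_erase hw))
  rw [h3] at h1
  exact Fin.ext (Nat.add_right_cancel h1)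

/-- If `f` is the projection `u0` on the patterns which are constant outside two directions, then
`f` is the projection `u0`. -/
theorem agree [NeZero d] (f : (Nb d → Fin 3) → Fin 3) (hnc : NumberConserving (glob f))
    (u0 : Nb d)
    (h : ∀ P : Nb d → Fin 3,
      (∃ i j, ∀ k, k ≠ i → k ≠ j → ∀ s, P (some (k, s)) = P none) → f P = P u0) :
    ∀ P, f P = P u0 := by
  -- centre `a`, all neighbours `c`
  have step1 : ∀ a c : Fin 3, f (fun u => if u = none then a else c) =
      if u0 = none then a else c := by
    intro a c
    have hz : ∀ u : Nb d, (0 : Fin d → ZMod 5) + nbz u = 0 ↔ u = none := by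
      intro u
      rw [zero_add]
      constructor
      · intro hu
        rcases u with _ | ⟨i, s⟩
        · rfl
        · exact absurd hu (nbz_ne_zero i s)
      · rintro rfl; exact nbz_none
    have h1 := single_out f hnc u0 (fun w => if w = 0 then a else c) (by
      intro w hw
      apply h (fun u => if w + nbz u = 0 then a else c)
      obtain ⟨k0, hk0⟩ : ∃ k, w k ≠ 0 := by
        by_contra hcon
        push Not at hcon
        exact hw (funext hcon)
      refine ⟨k0, k0, fun k hk _ s => ?_⟩
      have e1 : w + nbz (some (k, s)) ≠ 0 := by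
        intro h0
        have := congrFun h0 k0
        rw [Pi.add_apply, nbz_some, if_neg (Ne.symm hk), add_zero] at this
        exact hk0 this
      have e2 : w + nbz (none : Nb d) ≠ 0 := by
        rw [nbz_none, add_zero]; exact hw
      simp only [e1, e2, if_false])
    simp only [hz] at h1
    exact h1
  intro P
  have h1 := single_out f hnc u0 (fun w => P (inv w)) (by
    intro w hw
    by_cases hr : ∃ u, nbz u = w
    · obtain ⟨u, rfl⟩ := hr
      rcases u with _ | ⟨i, s⟩
      · exact absurd nbz_none hw
      · have e : ∀ u : Nb d, P (inv (nbz (some (i, s)) + nbz u)) =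
            if u = none then P (some (i, s)) else P none := by
          intro u
          rcases u with _ | ⟨k, t⟩
          · rw [nbz_none, add_zero, inv_nbz]; simp
          · rw [inv_eq_none]
            · simp
            · intro u' hu'
              rcases u' with _ | ⟨m, r⟩
              · rfl
              · exfalso
                have h2 := congrArg (fun w : Fin d → ZMod 5 => ∑ k, w k) hu'
                simp only [Pi.add_apply, Finset.sum_add_distrib, nbz_sum] at h2
                revert h2
                cases s <;> cases t <;> cases r <;> decide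
        simp only [e]
        exact step1 _ _
    · have hw0 : inv w = none := by
        unfold inv
        rw [dif_neg hr]
      apply h (fun u => P (inv (w + nbz u)))
      simp only [nbz_none, add_zero, hw0]
      by_cases hq : ∃ k s, inv (w + nbz (some (k, s))) ≠ none
      · obtain ⟨k, s, hks⟩ := hq
        obtain ⟨u', hu'⟩ : ∃ u', nbz u' = w + nbz (some (k, s)) := by
          by_contra hcon
          apply hks
          unfold inv
          rw [dif_neg hcon]
        rcases u' with _ | ⟨j, t⟩
        · rw [← hu', inv_nbz] at hks
          exact absurd rfl hks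
        · refine ⟨k, j, fun k' hk hj s' => ?_⟩
          rw [inv_eq_none]
          intro u'' hu''
          rcases u'' with _ | ⟨m, r⟩
          · rfl
          · exfalso
            -- the coordinate `k'` of `w` vanishes
            have e1 : w k' = 0 := by
              have := congrFun hu' k'
              rw [Pi.add_apply, nbz_some, nbz_some, if_neg hj, if_neg hk, add_zero] at this
              exact this.symm
            have e2 := congrFun hu'' k'
            rw [Pi.add_apply, nbz_some, nbz_some, if_pos rfl, e1, zero_add] at e2
            have hm : m = k' := by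
              by_contra hne
              rw [if_neg (Ne.symm hne)] at e2
              revert e2
              cases s' <;> decide
            subst hm
            apply hw
            funext l
            by_cases hl : l = m
            · subst hl; exact e1
            · have := congrFun hu'' l
              rw [Pi.add_apply, nbz_some, nbz_some, if_neg hl, if_neg hl, add_zero] at this
              exact this.symm
      · push Not at hq
        exact ⟨0, 0, fun k _ _ s => by rw [hq k s]⟩)
  simp only [zero_add, inv_nbz] at h1
  exact h1

/-! ### The theorem -/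

/-- A pattern constant outside the two directions `i ≠ j`. -/
theorem eq_pat2 {i j : Fin d} (P : Nb d → Fin 3)
    (h : ∀ k, k ≠ i → k ≠ j → ∀ s, P (some (k, s)) = P none) :
    P = pat2 i j (P none) (P (some (i, true))) (P (some (i, false))) (P (some (j, true)))
      (P (some (j, false))) := by
  funext u
  rcases u with _ | ⟨k, s⟩
  · rfl
  · by_cases hk : k = i
    · subst hk; cases s <;> simp [pat2]
    · by_cases hk' : k = j
      · subst hk'; cases s <;> simp [pat2, hk]
      · simp [pat2, hk, hk', h k hk hk' s]

theorem eq_pat1 {i : Fin d} (P : Nb d → Fin 3)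
    (h : ∀ k, k ≠ i → ∀ s, P (some (k, s)) = P none) :
    P = pat1 i (P none) (P (some (i, true))) (P (some (i, false))) := by
  funext u
  rcases u with _ | ⟨k, s⟩
  · rfl
  · by_cases hk : k = i
    · subst hk; cases s <;> simp [pat1]
    · simp [pat1, hk, h k hk s]

/-- An injective number-conserving cellular automaton has a projection as local rule. -/
theorem main [NeZero d] (f : (Nb d → Fin 3) → Fin 3) (hnc : NumberConserving (glob f))
    (hinj : Function.Injective (glob f)) : ∃ u0 : Nb d, ∀ P, f P = P u0 := by
  have hdir := dir1 f hnc hinj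
  have hcons : ∀ i j : Fin d, i ≠ j → Cons (fun c a b a' b' => f (pat2 i j c a b a' b')) :=
    fun i j hij => cons2 f hnc hij
  by_cases hA : ∃ i0 : Fin d, ∀ c a b, f (pat1 i0 c a b) = a
  · obtain ⟨i0, hi0⟩ := hA
    refine ⟨some (i0, true), agree f hnc _ ?_⟩
    have hp : ∀ j, j ≠ i0 → ∀ c a b a' b', f (pat2 i0 j c a b a' b') = a := by
      intro j hj
      exact shift2 _ (hcons i0 j hj.symm) (fun c a b => by
        show f (pat2 i0 j c a b c c) = a
        rw [pat2_left]; exact hi0 c a b)
    have hc : ∀ j, j ≠ i0 → ∀ c a b, f (pat1 j c a b) = c := by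
      intro j hj c a b
      rw [← pat2_right hj.symm]
      exact hp j hj c c c a b
    rintro P ⟨i, j, hP⟩
    by_cases hij : i = j
    · subst hij
      have hP' : ∀ k, k ≠ i → ∀ s, P (some (k, s)) = P none := fun k hk s => hP k hk hk s
      by_cases h0 : i = i0
      · subst h0
        rw [eq_pat1 P hP', hi0]
        simp [pat1]
      · rw [eq_pat1 P hP', hc i h0]
        simp [pat1, Ne.symm h0]
    · by_cases h0 : i = i0
      · subst h0
        rw [eq_pat2 P hP, hp j (Ne.symm hij)]
        simp [pat2]
      · by_cases h1 : j = i0
        · subst h1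
          have hP' : ∀ k, k ≠ j → k ≠ i → ∀ s, P (some (k, s)) = P none :=
            fun k hk hk' s => hP k hk' hk s
          rw [eq_pat2 P hP', hp i hij]
          simp [pat2]
        · have hid := id2 _ (hcons i j hij) (fun c a b => by
            show f (pat2 i j c a b c c) = c
            rw [pat2_left]; exact hc i h0 c a b) (fun c a b => by
            show f (pat2 i j c c c a b) = c
            rw [pat2_right hij]; exact hc j h1 c a b)
          rw [eq_pat2 P hP, hid]
          simp [pat2, Ne.symm h0, Ne.symm h1]
  by_cases hB : ∃ i0 : Fin d, ∀ c a b, f (pat1 i0 c a b) = b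
  · obtain ⟨i0, hi0⟩ := hB
    refine ⟨some (i0, false), agree f hnc _ ?_⟩
    have hp : ∀ j, j ≠ i0 → ∀ c a b a' b', f (pat2 i0 j c a b a' b') = b := by
      intro j hj
      exact shift2_b _ (hcons i0 j hj.symm) (fun c a b => by
        show f (pat2 i0 j c a b c c) = b
        rw [pat2_left]; exact hi0 c a b)
    have hc : ∀ j, j ≠ i0 → ∀ c a b, f (pat1 j c a b) = c := by
      intro j hj c a b
      rw [← pat2_right hj.symm]
      exact hp j hj c c c a b
    rintro P ⟨i, j, hP⟩
    by_cases hij : i = j
    · subst hij
      have hP' : ∀ k, k ≠ i → ∀ s, P (some (k, s)) = P none := fun k hk s => hP k hk hk s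
      by_cases h0 : i = i0
      · subst h0
        rw [eq_pat1 P hP', hi0]
        simp [pat1]
      · rw [eq_pat1 P hP', hc i h0]
        simp [pat1, Ne.symm h0]
    · by_cases h0 : i = i0
      · subst h0
        rw [eq_pat2 P hP, hp j (Ne.symm hij)]
        simp [pat2]
      · by_cases h1 : j = i0
        · subst h1
          have hP' : ∀ k, k ≠ j → k ≠ i → ∀ s, P (some (k, s)) = P none :=
            fun k hk hk' s => hP k hk' hk s
          rw [eq_pat2 P hP', hp i hij]
          simp [pat2]
        · have hid := id2 _ (hcons i j hij) (fun c a b => by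
            show f (pat2 i j c a b c c) = c
            rw [pat2_left]; exact hc i h0 c a b) (fun c a b => by
            show f (pat2 i j c c c a b) = c
            rw [pat2_right hij]; exact hc j h1 c a b)
          rw [eq_pat2 P hP, hid]
          simp [pat2, Ne.symm h0, Ne.symm h1]
  have hc : ∀ j, ∀ c a b, f (pat1 j c a b) = c := by
    intro j
    rcases hdir j with h | h | h
    · exact h
    · exact absurd ⟨j, h⟩ hA
    · exact absurd ⟨j, h⟩ hB
  refine ⟨none, agree f hnc _ ?_⟩
  rintro P ⟨i, j, hP⟩
  by_cases hij : i = j
  · subst hij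
    have hP' : ∀ k, k ≠ i → ∀ s, P (some (k, s)) = P none := fun k hk s => hP k hk hk s
    rw [eq_pat1 P hP', hc i]
    simp [pat1]
  · have hid := id2 _ (hcons i j hij) (fun c a b => by
      show f (pat2 i j c a b c c) = c
      rw [pat2_left]; exact hc i c a b) (fun c a b => by
      show f (pat2 i j c c c a b) = c
      rw [pat2_right hij]; exact hc j c a b)
    rw [eq_pat2 P hP, hid]
    simp [pat2]

end Pool.Agent.W99.CA
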